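import Mathlib

set_option autoImplicit false

namespace Pool.Agent.Results.MP_21aa77_al.ConjugateCover

/-- One-sided compatibility of a permutation of `ℕ` with the `p`-adic block tree: blocks of level
`m + 1` are mapped into blocks, and inside such a block the `m`-th digit is shifted by a
constant. -/
def Shifty (p : ℕ) (g : Equiv.Perm ℕ) : Prop :=
  ∀ m k l : ℕ, k / p ^ (m + 1) = l / p ^ (m + 1) →
    g k / p ^ (m + 1) = g l / p ^ (m + 1) ∧
    ((g k / p ^ m : ℕ) : ZMod p) - ((g l / p ^ m : ℕ) : ZMod p) =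
      ((k / p ^ m : ℕ) : ZMod p) - ((l / p ^ m : ℕ) : ZMod p)

lemma shifty_one (p : ℕ) : Shifty p 1 := by
  intro m k l h
  exact ⟨h, rfl⟩

lemma shifty_mul {p : ℕ} {g h : Equiv.Perm ℕ} (hg : Shifty p g) (hh : Shifty p h) :
    Shifty p (g * h) := by
  intro m k l hkl
  obtain ⟨h1, h2⟩ := hh m k l hkl
  obtain ⟨h3, h4⟩ := hg m (h k) (h l) h1
  refine ⟨?_, ?_⟩
  · simpa [Equiv.Perm.mul_apply] using h3
  · rw [Equiv.Perm.mul_apply, Equiv.Perm.mul_apply, h4, h2]

/-- The group: permutations moving only finitely many numbers which, together with their inverses,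
are compatible with the block tree. -/
def G (p : ℕ) : Subgroup (Equiv.Perm ℕ) where
  carrier := {g | (∃ N : ℕ, ∀ k, p ^ N ≤ k → g k = k) ∧ Shifty p g ∧ Shifty p g⁻¹}
  one_mem' := ⟨⟨0, fun k _ => rfl⟩, shifty_one p, by simpa using shifty_one p⟩
  mul_mem' := by
    rintro g h ⟨⟨N, hN⟩, hg1, hg2⟩ ⟨⟨M, hM⟩, hh1, hh2⟩
    refine ⟨?_, shifty_mul hg1 hh1, ?_⟩
    · by_cases hp : p = 0
      · subst hp
        refine ⟨max (max N M) 1, fun k hk => ?_⟩
        by_cases hk0 : 1 ≤ k
        · have hA : h k = k := hM k (by rcases Nat.eq_zero_or_pos M with h0 | h0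
                                        · subst h0; simpa using hk0
                                        · rw [Nat.zero_pow h0]; omega)
          have hB : g k = k := hN k (by rcases Nat.eq_zero_or_pos N with h0 | h0
                                        · subst h0; simpa using hk0
                                        · rw [Nat.zero_pow h0]; omega)
          rw [Equiv.Perm.mul_apply, hA, hB]
        · have hk1 : k = 0 := by omega
          subst hk1
          -- every other point is fixed, hence so is `0`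
          have hA : h 0 = 0 := by
            by_contra hne
            have h1 : h (h 0) = h 0 := hM (h 0) (by
              rcases Nat.eq_zero_or_pos M with h0 | h0
              · subst h0; simpa using Nat.one_le_iff_ne_zero.mpr hne
              · rw [Nat.zero_pow h0]; omega)
            exact hne (h.injective h1)
          have hB : g 0 = 0 := by
            by_contra hne
            have h1 : g (g 0) = g 0 := hN (g 0) (by
              rcases Nat.eq_zero_or_pos N with h0 | h0
              · subst h0; simpa using Nat.one_le_iff_ne_zero.mpr hne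
              · rw [Nat.zero_pow h0]; omega)
            exact hne (g.injective h1)
          rw [Equiv.Perm.mul_apply, hA, hB]
      · refine ⟨max N M, fun k hk => ?_⟩
        have hp1 : 1 ≤ p := Nat.one_le_iff_ne_zero.mpr hp
        have h1 : p ^ N ≤ k := le_trans (Nat.pow_le_pow_right hp1 (le_max_left _ _)) hk
        have h2 : p ^ M ≤ k := le_trans (Nat.pow_le_pow_right hp1 (le_max_right _ _)) hk
        rw [Equiv.Perm.mul_apply, hM k h2, hN k h1]
    · rw [mul_inv_rev]
      exact shifty_mul hh2 hg2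
  inv_mem' := by
    rintro g ⟨⟨N, hN⟩, hg1, hg2⟩
    refine ⟨⟨N, fun k hk => ?_⟩, hg2, by simpa using hg1⟩
    rw [Equiv.Perm.inv_eq_iff_eq]
    exact (hN k hk).symm

/-- If a compatible permutation preserves all blocks of level `m + 1`, then its `p`-th power
preserves all blocks of level `m`. -/
lemma pow_prime_preserves {p : ℕ} {h : Equiv.Perm ℕ} (hh : Shifty p h) (m : ℕ)
    (hb : ∀ k, h k / p ^ (m + 1) = k / p ^ (m + 1)) (k : ℕ) :
    (h ^ p) k / p ^ m = k / p ^ m := by
  have key : ∀ i : ℕ, (h ^ i) k / p ^ (m + 1) = k / p ^ (m + 1) ∧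
      (((h ^ i) k / p ^ m : ℕ) : ZMod p) = ((k / p ^ m : ℕ) : ZMod p) +
        (i : ZMod p) * (((h k / p ^ m : ℕ) : ZMod p) - ((k / p ^ m : ℕ) : ZMod p)) := by
    intro i
    induction i with
    | zero => simp
    | succ i ih =>
      obtain ⟨ih1, ih2⟩ := ih
      have e : (h ^ (i + 1)) k = h ((h ^ i) k) := by
        rw [pow_succ', Equiv.Perm.mul_apply]
      have h1 := hh m ((h ^ i) k) k ih1
      refine ⟨by rw [e, hb, ih1], ?_⟩
      rw [e]
      have h2 := h1.2
      rw [ih2] at h2
      push_cast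
      linear_combination h2
  obtain ⟨h1, h2⟩ := key p
  rw [ZMod.natCast_self, zero_mul, add_zero] at h2
  have h3 : ((h ^ p) k / p ^ m) % p = (k / p ^ m) % p := by
    exact (ZMod.natCast_eq_natCast_iff' _ _ _).mp h2
  have e1 : ∀ x : ℕ, x / p ^ m = p * (x / p ^ (m + 1)) + (x / p ^ m) % p := by
    intro x
    have : x / p ^ (m + 1) = x / p ^ m / p := by
      rw [pow_succ, Nat.div_div_eq_div_mul]
    rw [this]
    exact (Nat.div_add_mod _ _).symm
  rw [e1 ((h ^ p) k), e1 k, h1, h3]

lemma shifty_pow {p : ℕ} {g : Equiv.Perm ℕ} (hg : Shifty p g) (n : ℕ) : Shifty p (g ^ n) := by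
  induction n with
  | zero => simpa using shifty_one p
  | succ n ih => rw [pow_succ]; exact shifty_mul ih hg

lemma lt_of_lt {p N : ℕ} {g : Equiv.Perm ℕ} (hN : ∀ k, p ^ N ≤ k → g k = k) {k : ℕ}
    (hk : k < p ^ N) : g k < p ^ N := by
  by_contra hcon
  push Not at hcon
  have h1 := hN (g k) hcon
  have h2 := g.injective h1
  omega

lemma isPGroup (p : ℕ) : IsPGroup p (G p) := by
  rintro ⟨g, ⟨N, hN⟩, hg1, hg2⟩
  refine ⟨N, ?_⟩
  have key : ∀ j : ℕ, j ≤ N → ∀ k, (g ^ (p ^ j)) k / p ^ (N - j) = k / p ^ (N - j) := by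
    intro j
    induction j with
    | zero =>
      intro _ k
      simp only [pow_zero, pow_one, Nat.sub_zero]
      by_cases hk : k < p ^ N
      · rw [Nat.div_eq_of_lt hk, Nat.div_eq_of_lt (lt_of_lt hN hk)]
      · push Not at hk
        rw [hN k hk]
    | succ j ih =>
      intro hj k
      have e : N - j = (N - (j + 1)) + 1 := by omega
      have ih' := ih (by omega)
      rw [e] at ih'
      have := pow_prime_preserves (shifty_pow hg1 (p ^ j)) (N - (j + 1)) ih' k
      rwa [← pow_mul, ← pow_succ] at this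
  have hfin := key N le_rfl
  ext k
  have := hfin k
  simpa using this

/-- The block rotation `k ↦ k + c p^m` modulo `p^(m+1)` below `p^(m+1)`. -/
def rotFun (p m c : ℕ) (k : ℕ) : ℕ :=
  if k < p ^ (m + 1) then (k + c * p ^ m) % p ^ (m + 1) else k

lemma rotFun_lt {p m c k : ℕ} (hp : 0 < p) (hk : k < p ^ (m + 1)) :
    rotFun p m c k < p ^ (m + 1) := by
  rw [rotFun, if_pos hk]
  exact Nat.mod_lt _ (pow_pos hp _)

lemma rotFun_comp {p m c d : ℕ} (hp : 0 < p) (hcd : c + d = p) (k : ℕ) :
    rotFun p m c (rotFun p m d k) = k := by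
  by_cases hk : k < p ^ (m + 1)
  · have h1 := rotFun_lt (c := d) hp hk
    rw [rotFun, if_pos h1, rotFun, if_pos hk]
    have : (k + d * p ^ m) % p ^ (m + 1) + c * p ^ m ≡ k [MOD p ^ (m + 1)] := by
      calc (k + d * p ^ m) % p ^ (m + 1) + c * p ^ m
          ≡ (k + d * p ^ m) + c * p ^ m [MOD p ^ (m + 1)] :=
            Nat.ModEq.add_right _ (Nat.mod_modEq _ _)
        _ = k + p ^ (m + 1) := by rw [pow_succ']; rw [← hcd]; ring
        _ ≡ k [MOD p ^ (m + 1)] := by
            simp [Nat.ModEq]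
    rw [this, Nat.mod_eq_of_lt hk]
  · rw [rotFun, rotFun, if_neg hk, if_neg hk]

/-- The block rotation as a permutation. -/
def rot (p m : ℕ) (hp : 0 < p) : Equiv.Perm ℕ where
  toFun := rotFun p m 1
  invFun := rotFun p m (p - 1)
  left_inv := fun k => rotFun_comp hp (by omega) k
  right_inv := fun k => rotFun_comp hp (by omega) k

lemma rotFun_div_high {p m c : ℕ} (hp : 0 < p) (t : ℕ) (ht : m + 1 ≤ t) (k : ℕ) :
    rotFun p m c k / p ^ t = k / p ^ t := by
  by_cases hk : k < p ^ (m + 1)
  · have h1 := rotFun_lt (c := c) hp hk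
    have h2 : p ^ (m + 1) ≤ p ^ t := Nat.pow_le_pow_right hp ht
    rw [Nat.div_eq_of_lt (lt_of_lt_of_le h1 h2), Nat.div_eq_of_lt (lt_of_lt_of_le hk h2)]
  · rw [rotFun, if_neg hk]

lemma rotFun_div_low {p m c : ℕ} (hp : 0 < p) (t : ℕ) (ht : t ≤ m) (k : ℕ)
    (hk : k < p ^ (m + 1)) :
    rotFun p m c k / p ^ t = (k / p ^ t + c * p ^ (m - t)) % p ^ (m + 1 - t) := by
  rw [rotFun, if_pos hk]
  have e1 : p ^ (m + 1) = p ^ t * p ^ (m + 1 - t) := by
    rw [← pow_add]; congr 1; omega
  have e2 : p ^ m = p ^ t * p ^ (m - t) := by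
    rw [← pow_add]; congr 1; omega
  rw [e1, Nat.mod_mul_right_div_self, e2]
  congr 1
  have : k + c * (p ^ t * p ^ (m - t)) = k + p ^ t * (c * p ^ (m - t)) := by ring
  rw [this, Nat.add_mul_div_left _ _ (pow_pos hp t)]

lemma shifty_rotFun {p m c : ℕ} (hp : 0 < p) (t k l : ℕ)
    (hkl : k / p ^ (t + 1) = l / p ^ (t + 1)) :
    rotFun p m c k / p ^ (t + 1) = rotFun p m c l / p ^ (t + 1) ∧
    ((rotFun p m c k / p ^ t : ℕ) : ZMod p) - ((rotFun p m c l / p ^ t : ℕ) : ZMod p) =
      ((k / p ^ t : ℕ) : ZMod p) - ((l / p ^ t : ℕ) : ZMod p) := by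
  -- both are on the same side of `p^(m+1)` when `t ≤ m`
  by_cases ht : m + 1 ≤ t
  · rw [rotFun_div_high hp (t + 1) (by omega), rotFun_div_high hp (t + 1) (by omega),
      rotFun_div_high hp t ht, rotFun_div_high hp t ht]
    exact ⟨hkl, rfl⟩
  · push Not at ht
    have side : k < p ^ (m + 1) ↔ l < p ^ (m + 1) := by
      have e1 : p ^ (m + 1) = p ^ (m - t) * p ^ (t + 1) := by
        rw [← pow_add]; congr 1; omega
      rw [e1, ← Nat.div_lt_iff_lt_mul (pow_pos hp _), ← Nat.div_lt_iff_lt_mul (pow_pos hp _), hkl]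
    by_cases hk : k < p ^ (m + 1)
    · have hl := side.mp hk
      refine ⟨?_, ?_⟩
      · by_cases ht' : t + 1 ≤ m
        · rw [rotFun_div_low hp (t + 1) ht' k hk, rotFun_div_low hp (t + 1) ht' l hl, hkl]
        · rw [rotFun_div_high hp (t + 1) (by omega), rotFun_div_high hp (t + 1) (by omega), hkl]
      · have hcast : ∀ x : ℕ, ((x % p ^ (m + 1 - t) : ℕ) : ZMod p) = (x : ZMod p) := by
          intro x
          have hd : p ∣ p ^ (m + 1 - t) := dvd_pow_self p (by omega)
          exact (ZMod.natCast_eq_natCast_iff _ _ _).mpr ((Nat.mod_modEq x _).of_dvd hd)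
        rw [rotFun_div_low hp t (by omega) k hk, rotFun_div_low hp t (by omega) l hl,
          hcast, hcast]
        push_cast
        ring
    · have hl : ¬ l < p ^ (m + 1) := fun h => hk (side.mpr h)
      have e1 : rotFun p m c k = k := by rw [rotFun, if_neg hk]
      have e2 : rotFun p m c l = l := by rw [rotFun, if_neg hl]
      rw [e1, e2]
      exact ⟨hkl, rfl⟩

lemma rot_mem (p m : ℕ) (hp : 0 < p) : rot p m hp ∈ G p := by
  refine ⟨⟨m + 1, fun k hk => ?_⟩, ?_, ?_⟩
  · change rotFun p m 1 k = k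
    rw [rotFun, if_neg (by omega)]
  · intro t k l hkl
    exact shifty_rotFun hp t k l hkl
  · intro t k l hkl
    exact shifty_rotFun (c := p - 1) hp t k l hkl

/-- A bound for the support. -/
noncomputable def bd (p : ℕ) (x : G p) : ℕ := x.2.1.choose

lemma bd_spec (p : ℕ) (x : G p) : ∀ k, p ^ (bd p x) ≤ k → (x : Equiv.Perm ℕ) k = k :=
  x.2.1.choose_spec

lemma finite_bounded (p N : ℕ) :
    {g : Equiv.Perm ℕ | ∀ k, p ^ N ≤ k → g k = k}.Finite := by
  have hinj : Function.Injective
      (fun g : {g : Equiv.Perm ℕ | ∀ k, p ^ N ≤ k → g k = k} =>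
        (fun k : Fin (p ^ N) => (⟨g.1 k, lt_of_lt g.2 k.2⟩ : Fin (p ^ N)))) := by
    rintro ⟨g, hg⟩ ⟨h, hh⟩ hgh
    apply Subtype.ext
    ext k
    by_cases hk : k < p ^ N
    · have := congrFun hgh ⟨k, hk⟩
      simpa using this
    · push Not at hk
      change g k = h k
      rw [hg k hk, hh k hk]
  have := Finite.of_injective _ hinj
  exact Set.toFinite _


lemma locallyFinite (p : ℕ) (hp : 0 < p) (s : Set (G p)) (hs : s.Finite) :
    Finite (Subgroup.closure s) := by
  -- a common bound for the supports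
  obtain ⟨N, hN⟩ : ∃ N, ∀ x ∈ s, bd p x ≤ N := by
    obtain ⟨N, hN⟩ := (hs.image (bd p)).bddAbove
    exact ⟨N, fun x hx => hN (Set.mem_image_of_mem _ hx)⟩
  have hsub : ∀ x ∈ Subgroup.closure s, ∀ k, p ^ N ≤ k → (x : Equiv.Perm ℕ) k = k := by
    intro x hx
    induction hx using Subgroup.closure_induction with
    | mem x hx =>
      intro k hk
      exact bd_spec p x k (le_trans (Nat.pow_le_pow_right hp (hN x hx)) hk)
    | one => intro k _; rfl
    | mul x y _ _ ihx ihy =>
      intro k hk
      rw [Subgroup.coe_mul, Equiv.Perm.mul_apply, ihy k hk, ihx k hk]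
    | inv x _ ih =>
      intro k hk
      rw [Subgroup.coe_inv, Equiv.Perm.inv_eq_iff_eq]
      exact (ih k hk).symm
  have := (finite_bounded p N).to_subtype
  refine Finite.of_injective
    (fun x : Subgroup.closure s =>
      (⟨((x : G p) : Equiv.Perm ℕ), hsub x.1 x.2⟩ :
        {g : Equiv.Perm ℕ | ∀ k, p ^ N ≤ k → g k = k})) ?_
  intro x y hxy
  apply Subtype.ext
  apply Subtype.ext
  exact congrArg (fun z : {g : Equiv.Perm ℕ | ∀ k, p ^ N ≤ k → g k = k} => z.1) hxy

lemma countable_G (p : ℕ) : Countable (G p) := by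
  have h1 : (⋃ N : ℕ, {g : Equiv.Perm ℕ | ∀ k, p ^ N ≤ k → g k = k}).Countable :=
    Set.countable_iUnion fun N => (finite_bounded p N).countable
  have h2 : ((G p : Subgroup (Equiv.Perm ℕ)) : Set (Equiv.Perm ℕ)).Countable := by
    refine h1.mono ?_
    rintro g ⟨⟨N, hN⟩, _⟩
    exact Set.mem_iUnion.mpr ⟨N, hN⟩
  exact h2.to_subtype

/-- Each element gets its own level, beyond its support. -/
noncomputable def lev (p : ℕ) (x : G p) : ℕ :=
  Nat.pair (Classical.choose (@exists_injective_nat (G p) (countable_G p)) x) (bd p x)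

lemma lev_inj (p : ℕ) : Function.Injective (lev p) := by
  intro x y hxy
  have h := Classical.choose_spec (@exists_injective_nat (G p) (countable_G p))
  unfold lev at hxy
  exact h (Nat.pair_eq_pair.mp hxy).1

lemma bd_le_lev (p : ℕ) (x : G p) : bd p x ≤ lev p x := Nat.right_le_pair _ _

/-- The element of the group given by the block rotation at level `m`. -/
def R (p m : ℕ) (hp : 0 < p) : G p := ⟨rot p m hp, rot_mem p m hp⟩

/-- The conjugate of `x` supported on its own block. -/
noncomputable def z (p : ℕ) (hp : 0 < p) (x : G p) : G p :=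
  R p (lev p x) hp * x * (R p (lev p x) hp)⁻¹

lemma z_fix (p : ℕ) (hp : 1 < p) (x : G p) (k : ℕ)
    (hk : k < p ^ (lev p x) ∨ p ^ (lev p x + 1) ≤ k) :
    (z p (by omega) x : Equiv.Perm ℕ) k = k := by
  set m := lev p x with hm
  have hp0 : 0 < p := by omega
  have hpm : 0 < p ^ m := pow_pos hp0 m
  have hpow : 2 * p ^ m ≤ p ^ (m + 1) := by
    rw [pow_succ, mul_comm]
    exact Nat.mul_le_mul_left _ hp
  -- the point `l` with `rot l = k` is not moved by `x`
  have hinv : (((R p m hp0)⁻¹ : G p) : Equiv.Perm ℕ) k = rotFun p m (p - 1) k := rfl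
  have hl : p ^ m ≤ rotFun p m (p - 1) k := by
    rcases hk with hk | hk
    · have hk' : k < p ^ (m + 1) := by omega
      rw [rotFun, if_pos hk']
      have e : k + (p - 1) * p ^ m < p ^ (m + 1) := by
        have : (p - 1) * p ^ m + p ^ m = p ^ (m + 1) := by
          rw [pow_succ', ← Nat.succ_mul]
          congr 1
          omega
        omega
      rw [Nat.mod_eq_of_lt e]
      have : 1 * p ^ m ≤ (p - 1) * p ^ m := Nat.mul_le_mul_right _ (by omega)
      omega
    · rw [rotFun, if_neg (by omega)]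
      omega
  have hx : (x : Equiv.Perm ℕ) (rotFun p m (p - 1) k) = rotFun p m (p - 1) k :=
    bd_spec p x _ (le_trans (Nat.pow_le_pow_right hp0 (bd_le_lev p x)) hl)
  have : (z p hp0 x : Equiv.Perm ℕ) k
      = rotFun p m 1 ((x : Equiv.Perm ℕ) (rotFun p m (p - 1) k)) := rfl
  rw [this, hx]
  exact rotFun_comp hp0 (by omega) k

lemma z_comm (p : ℕ) (hp : 1 < p) (x y : G p) :
    z p (by omega) x * z p (by omega) y = z p (by omega) y * z p (by omega) x := by
  have hp0 : 0 < p := by omega
  by_cases hxy : x = y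
  · rw [hxy]
  · have hne : lev p x ≠ lev p y := fun h => hxy (lev_inj p h)
    have hd : Equiv.Perm.Disjoint (z p hp0 x : Equiv.Perm ℕ) (z p hp0 y : Equiv.Perm ℕ) := by
      intro k
      by_cases h1 : k < p ^ (lev p x) ∨ p ^ (lev p x + 1) ≤ k
      · exact Or.inl (z_fix p hp x k h1)
      · right
        push Not at h1
        apply z_fix p hp y k
        rcases lt_or_gt_of_ne hne with h | h
        · left
          exact lt_of_lt_of_le h1.2 (Nat.pow_le_pow_right hp0 h)
        · right
          exact le_trans (Nat.pow_le_pow_right hp0 h) h1.1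
    apply Subtype.ext
    exact hd.commute.eq

/-- For every prime `p` there is a (countable) locally finite `p`-group which is the union of the
conjugates of a proper abelian subgroup. -/
theorem result : ∀ p : ℕ, p.Prime →
    ∃ (G : Type) (_ : Group G) (A : Subgroup G),
      IsPGroup p G ∧
      (∀ s : Set G, s.Finite → Finite (Subgroup.closure s)) ∧
      A ≠ ⊤ ∧
      (∀ a ∈ A, ∀ b ∈ A, a * b = b * a) ∧
      (∀ g : G, ∃ x : G, x⁻¹ * g * x ∈ A) := by
  intro p hp
  have hp0 : 0 < p := hp.pos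
  have hp1 : 1 < p := hp.one_lt
  have hcomm : ∀ a ∈ Subgroup.closure (Set.range (z p hp0)),
      ∀ b ∈ Subgroup.closure (Set.range (z p hp0)), a * b = b * a := by
    intro a ha b hb
    induction ha, hb using Subgroup.closure_induction₂ with
    | mem x y hx hy =>
      obtain ⟨u, rfl⟩ := hx
      obtain ⟨v, rfl⟩ := hy
      exact z_comm p hp1 u v
    | one_left x _ => simp
    | one_right x _ => simp
    | mul_left x y w _ _ _ h1 h2 =>
      rw [mul_assoc, h2, ← mul_assoc, h1, mul_assoc]
    | mul_right x y w _ _ _ h1 h2 =>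
      rw [← mul_assoc, h1, mul_assoc, h2, mul_assoc]
    | inv_left x y _ _ h => exact (Commute.inv_left h)
    | inv_right x y _ _ h => exact (Commute.inv_right h)
  refine ⟨G p, inferInstance, Subgroup.closure (Set.range (z p hp0)), isPGroup p,
    fun s hs => locallyFinite p hp0 s hs, ?_, hcomm, ?_⟩
  · intro htop
    have h := hcomm (R p 0 hp0) (by rw [htop]; trivial) (R p 1 hp0) (by rw [htop]; trivial)
    have h' : (((R p 0 hp0) * (R p 1 hp0) : G p) : Equiv.Perm ℕ) 0
        = (((R p 1 hp0) * (R p 0 hp0) : G p) : Equiv.Perm ℕ) 0 := by rw [h]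
    have e1 : (((R p 0 hp0) * (R p 1 hp0) : G p) : Equiv.Perm ℕ) 0
        = rotFun p 0 1 (rotFun p 1 1 0) := rfl
    have e2 : (((R p 1 hp0) * (R p 0 hp0) : G p) : Equiv.Perm ℕ) 0
        = rotFun p 1 1 (rotFun p 0 1 0) := rfl
    rw [e1, e2] at h'
    have hpp : p + 1 < p ^ (1 + 1) := by rw [pow_succ, pow_one]; nlinarith
    have f1 : rotFun p 1 1 0 = p := by
      rw [rotFun, if_pos (pow_pos hp0 _)]
      simp only [pow_one, one_mul, zero_add]
      exact Nat.mod_eq_of_lt (by omega)
    have f2 : rotFun p 0 1 0 = 1 := by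
      rw [rotFun, if_pos (pow_pos hp0 _)]
      simp only [pow_zero, pow_one, one_mul, zero_add]
      exact Nat.mod_eq_of_lt hp1
    have f3 : rotFun p 0 1 p = p := by
      rw [rotFun, if_neg (by simp)]
    have f4 : rotFun p 1 1 1 = 1 + p := by
      have h1 : 1 < p ^ (1 + 1) := by omega
      rw [rotFun, if_pos h1]
      simp only [pow_one, one_mul]
      exact Nat.mod_eq_of_lt (by omega)
    rw [f1, f2, f3, f4] at h'
    omega
  · intro g
    refine ⟨(R p (lev p g) hp0)⁻¹, ?_⟩
    rw [inv_inv]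
    exact Subgroup.subset_closure ⟨g, rfl⟩

end Pool.Agent.Results.MP_21aa77_al.ConjugateCover
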